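import Pool.Agent.Y959.Her.Mom
import Pool.Agent.H510R2.Div

set_option autoImplicit false

/-!
# From an even moment to real exponents, and the moments of a Dirichlet polynomial on `[N, 2N]`
-/

namespace Pool.Agent.Q229.LQ

open Finset Pool.Agent.TH705.DL Pool.Agent.Y959.Her

/-- From the `2k`-th moment to the `q`-th moment. -/
theorem from_even {ι : Type*} (W : Finset ι) (d : ι → ℝ) (hd0 : ∀ i, 0 ≤ d i) (N : ℕ) (hN : 1 ≤ N)
    (hmax : ∀ i ∈ W, d i ≤ 2 * N) (k : ℕ) (hk : 1 ≤ k) (F : ℝ) (hF : 1 ≤ F)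
    (h : ∑ i ∈ W, d i ^ (2 * k) ≤ F * ((N : ℝ) ^ (2 * k) + W.card * (N : ℝ) ^ k)) (q : ℝ) (hq : 0 < q)
    (hcase : ((2 * k : ℝ) ≤ q ∧ (W.card : ℝ) ≤ (N : ℝ) ^ k) ∨ (q ≤ (2 * k : ℝ) ∧ (N : ℝ) ^ k ≤ (W.card : ℝ))) :
    ∑ i ∈ W, d i ^ q ≤ 2 ^ q * (2 * F) * ((N : ℝ) ^ q + W.card * (N : ℝ) ^ (q / 2)) := by
  have hN1 : (1 : ℝ) ≤ N := by exact_mod_cast hN
  have hN0 : (0 : ℝ) < N := by linarith
  have hk1 : (1 : ℝ) ≤ k := by exact_mod_cast hk
  have hk0 : (0 : ℝ) < 2 * k := by linarith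
  have hW0 : (0 : ℝ) ≤ W.card := Nat.cast_nonneg _
  have hNq : 0 < (N : ℝ) ^ q := Real.rpow_pos_of_pos hN0 _
  have hNq2 : 0 < (N : ℝ) ^ (q / 2) := Real.rpow_pos_of_pos hN0 _
  have h2q : (1 : ℝ) ≤ 2 ^ q := Real.one_le_rpow (by norm_num) hq.le
  rcases hcase with ⟨h1, h2⟩ | ⟨h1, h2⟩
  · -- `q ≥ 2k`
    have h3 : ∀ i ∈ W, d i ^ q ≤ (2 * N : ℝ) ^ (q - 2 * k) * d i ^ (2 * k) := by
      intro i hi
      rcases (hd0 i).eq_or_lt with h0 | h0
      · rw [← h0, Real.zero_rpow hq.ne', zero_pow (by omega), mul_zero]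
      · have e : d i ^ q = d i ^ (q - 2 * k) * d i ^ (2 * k) := by
          rw [← Real.rpow_natCast (d i) (2 * k), ← Real.rpow_add h0]
          congr 1
          push_cast
          ring
        rw [e]
        apply mul_le_mul_of_nonneg_right _ (by positivity)
        exact Real.rpow_le_rpow h0.le (hmax i hi) (by linarith)
    have h4 : ∑ i ∈ W, d i ^ q ≤ (2 * N : ℝ) ^ (q - 2 * k) * (F * (2 * (N : ℝ) ^ (2 * k))) := by
      refine (sum_le_sum h3).trans ?_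
      rw [← mul_sum]
      apply mul_le_mul_of_nonneg_left _ (by positivity)
      refine h.trans ?_
      apply mul_le_mul_of_nonneg_left _ (by linarith)
      have h5 : (W.card : ℝ) * (N : ℝ) ^ k ≤ (N : ℝ) ^ (2 * k) := by
        calc (W.card : ℝ) * (N : ℝ) ^ k ≤ (N : ℝ) ^ k * (N : ℝ) ^ k :=
              mul_le_mul_of_nonneg_right h2 (by positivity)
          _ = (N : ℝ) ^ (2 * k) := by rw [← pow_add]; congr 1; ring
      linarith
    refine h4.trans ?_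
    have e1 : (2 * N : ℝ) ^ (q - 2 * k) = 2 ^ (q - 2 * k) * (N : ℝ) ^ (q - 2 * k) :=
      Real.mul_rpow (by norm_num) hN0.le
    have e2 : (N : ℝ) ^ (q - 2 * k) * (N : ℝ) ^ (2 * k) = (N : ℝ) ^ q := by
      rw [← Real.rpow_natCast (N : ℝ) (2 * k), ← Real.rpow_add hN0]
      congr 1
      push_cast
      ring
    have e3 : (2 : ℝ) ^ (q - 2 * k) ≤ 2 ^ q := Real.rpow_le_rpow_of_exponent_le (by norm_num) (by linarith)
    calc (2 * N : ℝ) ^ (q - 2 * k) * (F * (2 * (N : ℝ) ^ (2 * k)))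
        = 2 ^ (q - 2 * k) * (2 * F) * ((N : ℝ) ^ (q - 2 * k) * (N : ℝ) ^ (2 * k)) := by rw [e1]; ring
      _ = 2 ^ (q - 2 * k) * (2 * F) * (N : ℝ) ^ q := by rw [e2]
      _ ≤ 2 ^ q * (2 * F) * ((N : ℝ) ^ q + W.card * (N : ℝ) ^ (q / 2)) := by
          apply mul_le_mul
          · exact mul_le_mul_of_nonneg_right e3 (by linarith)
          · have : 0 ≤ (W.card : ℝ) * (N : ℝ) ^ (q / 2) := by positivity
            linarith
          · exact hNq.le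
          · positivity
  · -- `q ≤ 2k`: Hölder
    have hWpos : (0 : ℝ) < W.card := lt_of_lt_of_le (by positivity) h2
    have hp : 1 ≤ (2 * k : ℝ) / q := by rwa [one_le_div hq]
    have hp0 : 0 < (2 * k : ℝ) / q := by positivity
    have h3 := Real.rpow_sum_le_const_mul_sum_rpow W (fun i => d i ^ q) hp
    have e1 : ∀ i, |d i ^ q| = d i ^ q := fun i => abs_of_nonneg (Real.rpow_nonneg (hd0 i) _)
    have e2 : ∀ i, (d i ^ q) ^ ((2 * k : ℝ) / q) = d i ^ (2 * k) := by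
      intro i
      rw [← Real.rpow_mul (hd0 i), mul_div_cancel₀ _ hq.ne', ← Real.rpow_natCast]
      congr 1
      push_cast
      ring
    simp only [e1, e2] at h3
    have h4 : ∑ i ∈ W, d i ^ (2 * k) ≤ 2 * F * (W.card * (N : ℝ) ^ k) := by
      refine h.trans ?_
      have h5 : (N : ℝ) ^ (2 * k) ≤ W.card * (N : ℝ) ^ k := by
        calc (N : ℝ) ^ (2 * k) = (N : ℝ) ^ k * (N : ℝ) ^ k := by rw [← pow_add]; congr 1; ring
          _ ≤ W.card * (N : ℝ) ^ k := mul_le_mul_of_nonneg_right h2 (by positivity)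
      have hF0 : 0 ≤ F := by linarith
      nlinarith
    set S : ℝ := ∑ i ∈ W, d i ^ q with hS
    have hS0 : 0 ≤ S := sum_nonneg fun i _ => Real.rpow_nonneg (hd0 i) _
    have h5 : S ^ ((2 * k : ℝ) / q) ≤ 2 * F * ((W.card : ℝ) ^ ((2 * k : ℝ) / q) * (N : ℝ) ^ k) := by
      refine h3.trans ?_
      calc (W.card : ℝ) ^ ((2 * k : ℝ) / q - 1) * ∑ i ∈ W, d i ^ (2 * k)
          ≤ (W.card : ℝ) ^ ((2 * k : ℝ) / q - 1) * (2 * F * (W.card * (N : ℝ) ^ k)) :=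
            mul_le_mul_of_nonneg_left h4 (by positivity)
        _ = 2 * F * (((W.card : ℝ) ^ ((2 * k : ℝ) / q - 1) * W.card) * (N : ℝ) ^ k) := by ring
        _ = _ := by
            have e : (W.card : ℝ) ^ ((2 * k : ℝ) / q - 1) * W.card = (W.card : ℝ) ^ ((2 * k : ℝ) / q) := by
              nth_rewrite 2 [← Real.rpow_one (W.card : ℝ)]
              rw [← Real.rpow_add hWpos]
              congr 1
              ring
            rw [e]
    have h6 : S ≤ (2 * F * ((W.card : ℝ) ^ ((2 * k : ℝ) / q) * (N : ℝ) ^ k)) ^ (q / (2 * k)) := by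
      have h7 := Real.rpow_le_rpow (by positivity) h5 (by positivity : (0 : ℝ) ≤ q / (2 * k))
      rw [← Real.rpow_mul hS0] at h7
      have e : (2 * k : ℝ) / q * (q / (2 * k)) = 1 := by field_simp
      rwa [e, Real.rpow_one] at h7
    refine h6.trans ?_
    have hF1 : 1 ≤ 2 * F := by linarith
    have e3 : (2 * k : ℝ) / q * (q / (2 * k)) = 1 := by field_simp
    have e4 : ((N : ℝ) ^ k) ^ (q / (2 * k)) = (N : ℝ) ^ (q / 2) := by
      rw [← Real.rpow_natCast, ← Real.rpow_mul hN0.le]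
      congr 1
      field_simp
    have e6 : (2 * F * ((W.card : ℝ) ^ ((2 * k : ℝ) / q) * (N : ℝ) ^ k)) ^ (q / (2 * k)) =
        (2 * F) ^ (q / (2 * k)) * (W.card * (N : ℝ) ^ (q / 2)) := by
      rw [Real.mul_rpow (x := 2 * F) (by linarith) (by positivity),
        Real.mul_rpow (x := (W.card : ℝ) ^ ((2 * k : ℝ) / q)) (by positivity) (by positivity),
        ← Real.rpow_mul hWpos.le, e3, e4, Real.rpow_one]
    rw [e6]
    have e5 : (2 * F) ^ (q / (2 * k)) ≤ 2 * F := by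
      calc (2 * F) ^ (q / (2 * k)) ≤ (2 * F) ^ (1 : ℝ) := by
            apply Real.rpow_le_rpow_of_exponent_le hF1
            rw [div_le_one hk0]
            exact h1
        _ = 2 * F := Real.rpow_one _
    calc (2 * F) ^ (q / (2 * k)) * (W.card * (N : ℝ) ^ (q / 2))
        ≤ 2 * F * (W.card * (N : ℝ) ^ (q / 2)) := mul_le_mul_of_nonneg_right e5 (by positivity)
      _ ≤ 2 * F * ((N : ℝ) ^ q + W.card * (N : ℝ) ^ (q / 2)) :=
          mul_le_mul_of_nonneg_left (by linarith) (by linarith)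
      _ ≤ 2 ^ q * (2 * F * ((N : ℝ) ^ q + W.card * (N : ℝ) ^ (q / 2))) :=
          le_mul_of_one_le_left (by positivity) h2q
      _ = _ := by ring

/-- coefficients supported on `[N, 2N]` -/
noncomputable def cut (N : ℕ) (b : ℕ → ℂ) (n : ℕ) : ℂ := if N ≤ n then b n else 0

theorem DP_cut (N : ℕ) (hN : 1 ≤ N) (b : ℕ → ℂ) (t : ℝ) :
    DP (2 * N) (cut N b) t = ∑ n ∈ Icc N (2 * N), b n * ph t n := by
  unfold DP cut
  have h : Icc N (2 * N) = (Icc 1 (2 * N)).filter (fun n => N ≤ n) := by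
    ext n
    simp only [mem_Icc, mem_filter]
    omega
  rw [h, sum_filter]
  apply sum_congr rfl
  intro n _
  split_ifs <;> simp

theorem cut_sq (N : ℕ) (hN : 1 ≤ N) (b : ℕ → ℂ) (hb : ∀ n ∈ Icc N (2 * N), ‖b n‖ ≤ 1) :
    ∑ n ∈ Icc 1 (2 * N), ‖cut N b n‖ ^ 2 ≤ 2 * N := by
  have h : Icc N (2 * N) = (Icc 1 (2 * N)).filter (fun n => N ≤ n) := by
    ext n
    simp only [mem_Icc, mem_filter]
    omega
  calc ∑ n ∈ Icc 1 (2 * N), ‖cut N b n‖ ^ 2 = ∑ n ∈ Icc N (2 * N), ‖b n‖ ^ 2 := by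
        rw [h, sum_filter]
        apply sum_congr rfl
        intro n _
        unfold cut
        split_ifs <;> simp
    _ ≤ ∑ n ∈ Icc N (2 * N), (1 : ℝ) := sum_le_sum fun n hn => pow_le_one₀ (norm_nonneg _) (hb n hn)
    _ = ((2 * N + 1 - N : ℕ) : ℝ) := by simp
    _ ≤ 2 * N := by exact_mod_cast (by omega : 2 * N + 1 - N ≤ 2 * N)

theorem D_le (N : ℕ) (hN : 1 ≤ N) (b : ℕ → ℂ) (hb : ∀ n ∈ Icc N (2 * N), ‖b n‖ ≤ 1) (t : ℝ) :
    ‖∑ n ∈ Icc N (2 * N), b n * ph t n‖ ≤ 2 * N := by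
  refine (norm_sum_le _ _).trans ?_
  calc ∑ n ∈ Icc N (2 * N), ‖b n * ph t n‖ ≤ ∑ n ∈ Icc N (2 * N), (1 : ℝ) := by
        apply sum_le_sum
        intro n hn
        rw [norm_mul, ph_norm, mul_one]
        exact hb n hn
    _ = ((2 * N + 1 - N : ℕ) : ℝ) := by simp
    _ ≤ 2 * N := by exact_mod_cast (by omega : 2 * N + 1 - N ≤ 2 * N)

/-- The square of the norm of the coefficients of the `j`-th power. -/
theorem pw_bound (ε : ℝ) (hε : 0 < ε) (J : ℕ) : ∃ K : ℝ, 1 ≤ K ∧ ∀ N : ℕ, 1 ≤ N → ∀ b : ℕ → ℂ,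
    (∀ n ∈ Icc N (2 * N), ‖b n‖ ≤ 1) → ∀ j ≤ J,
      ∑ m ∈ Icc 1 ((2 * N) ^ j), ‖pw (2 * N) (cut N b) j m‖ ^ 2 ≤ K * (N : ℝ) ^ ε * (N : ℝ) ^ j := by
  obtain ⟨C, hC0, hC⟩ := Pool.Agent.H510R2.divisor_bound (ε / ((J : ℝ) + 1) ^ 2) (by positivity)
  set C1 : ℝ := max C 1 with hC1
  have hC11 : 1 ≤ C1 := le_max_right _ _
  have h2ε : (1 : ℝ) ≤ 2 ^ ε := Real.one_le_rpow (by norm_num) hε.le
  have h2J : (1 : ℝ) ≤ 2 ^ J := one_le_pow₀ (by norm_num)
  have hCJ : 1 ≤ C1 ^ J := one_le_pow₀ hC11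
  refine ⟨C1 ^ J * 2 ^ ε * 2 ^ J, ?_, ?_⟩
  · exact one_le_mul_of_one_le_of_one_le (one_le_mul_of_one_le_of_one_le hCJ h2ε) h2J
  intro N hN b hb j hj
  have hN1 : (1 : ℝ) ≤ N := by exact_mod_cast hN
  have hN0 : (0 : ℝ) < N := by linarith
  have h2N : (1 : ℝ) ≤ 2 * N := by linarith
  have hJ1 : (0 : ℝ) < (J : ℝ) + 1 := by positivity
  set D : ℝ := C1 * (2 * N : ℝ) ^ (ε / (J + 1)) with hD
  have hD1 : 1 ≤ D := one_le_mul_of_one_le_of_one_le hC11 (Real.one_le_rpow h2N (by positivity))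
  have hdiv : ∀ m ∈ Icc 1 ((2 * N) ^ J), (m.divisors.card : ℝ) ≤ D := by
    intro m hm
    rw [mem_Icc] at hm
    have h1 := hC m hm.1
    refine h1.trans ?_
    apply mul_le_mul (le_max_left _ _) _ (by positivity) (by positivity)
    have hm2 : (m : ℝ) ≤ (2 * N : ℝ) ^ J := by exact_mod_cast hm.2
    calc (m : ℝ) ^ (ε / ((J : ℝ) + 1) ^ 2) ≤ ((2 * N : ℝ) ^ J) ^ (ε / ((J : ℝ) + 1) ^ 2) :=
          Real.rpow_le_rpow (Nat.cast_nonneg _) hm2 (by positivity)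
      _ = (2 * N : ℝ) ^ ((J : ℝ) * (ε / ((J : ℝ) + 1) ^ 2)) := by
          rw [← Real.rpow_natCast, ← Real.rpow_mul (by linarith)]
      _ ≤ (2 * N : ℝ) ^ (ε / (J + 1)) := by
          apply Real.rpow_le_rpow_of_exponent_le h2N
          rw [mul_div_assoc', div_le_div_iff₀ (by positivity) hJ1]
          have : (J : ℝ) ≤ J + 1 := by linarith
          nlinarith [mul_pos hε hJ1]
  have h1 := pw_l2 (2 * N) (cut N b) J D hdiv (by omega) j hj
  refine h1.trans ?_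
  have h2 : (∑ n ∈ Icc 1 (2 * N), ‖cut N b n‖ ^ 2) ^ j ≤ (2 * (N : ℝ)) ^ j :=
    pow_le_pow_left₀ (sum_nonneg fun _ _ => by positivity) (cut_sq N hN b hb) j
  have h3 : D ^ j ≤ C1 ^ J * (2 ^ ε * (N : ℝ) ^ ε) := by
    calc D ^ j ≤ D ^ J := pow_le_pow_right₀ hD1 hj
      _ = C1 ^ J * ((2 * N : ℝ) ^ (ε / (J + 1))) ^ J := by rw [hD, mul_pow]
      _ ≤ C1 ^ J * (2 * N : ℝ) ^ ε := by
          apply mul_le_mul_of_nonneg_left _ (by positivity)
          rw [← Real.rpow_natCast, ← Real.rpow_mul (by linarith)]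
          apply Real.rpow_le_rpow_of_exponent_le h2N
          rw [div_mul_eq_mul_div, div_le_iff₀ hJ1]
          nlinarith
      _ = _ := by rw [Real.mul_rpow (by norm_num) hN0.le]
  have h4 : (2 * (N : ℝ)) ^ j ≤ 2 ^ J * (N : ℝ) ^ j := by
    rw [mul_pow]
    exact mul_le_mul_of_nonneg_right (pow_le_pow_right₀ (by norm_num) hj) (by positivity)
  calc D ^ j * (∑ n ∈ Icc 1 (2 * N), ‖cut N b n‖ ^ 2) ^ j
      ≤ (C1 ^ J * (2 ^ ε * (N : ℝ) ^ ε)) * (2 ^ J * (N : ℝ) ^ j) := by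
        apply mul_le_mul h3 (h2.trans h4) (pow_nonneg (sum_nonneg fun _ _ => by positivity) _)
        positivity
    _ = _ := by ring

end Pool.Agent.Q229.LQ
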