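import Pool.Agent.Q229.LQ.Base
import Pool.Agent.TH705.DL.TransM

set_option autoImplicit false

/-!
# Independent translations: Dirichlet polynomials of arbitrary length
-/

namespace Pool.Agent.Q229.LQ

open Finset MeasureTheory Pool.Agent.TH705.AW Pool.Agent.TH705.DL
open scoped InnerProductSpace ENNReal

/-- the vector of a coefficient sequence -/
noncomputable def va (M : ℕ) (a : ℕ → ℂ) : VV M := WithLp.toLp 2 (fun n : Icc 1 M => a n)

theorem ext0_va (M : ℕ) (a : ℕ → ℂ) (n : ℕ) (hn : n ∈ Icc 1 M) : ext0 (va M a) n = a n := by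
  unfold ext0
  rw [dif_pos hn]
  rfl

theorem DP_va (M : ℕ) (a : ℕ → ℂ) (t : ℝ) : DP M (ext0 (va M a)) t = DP M a t := by
  unfold DP
  apply sum_congr rfl
  intro n hn
  rw [ext0_va M a n hn]

theorem norm_va (M : ℕ) (a : ℕ → ℂ) : ‖va M a‖ ^ 2 = ∑ n ∈ Icc 1 M, ‖a n‖ ^ 2 := by
  rw [← norm_ext0]
  apply sum_congr rfl
  intro n hn
  rw [ext0_va M a n hn]

theorem trans_gen {ι : Type*} [Fintype ι] (M : ℕ) (hM : 1 ≤ M) (P : ι → Finset ℝ)
    (hP : ∀ j, Sep (P j)) (hx : ∀ j, ∃ x : ℝ, ∀ t ∈ P j, x ≤ t ∧ t ≤ x + M)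
    (h δ : ℝ) (hh : 0 < h) (hδ : 0 < δ) :
    ∃ E : Set (ι → ℝ), MeasurableSet E ∧
      volume E ≤ ENNReal.ofReal (δ * h ^ Fintype.card ι) ∧
      ∀ u : ι → ℝ, (∀ j, u j ∈ Set.Icc 0 h) → u ∉ E → ∀ a : ℕ → ℂ,
        ∑ j, ∑ t ∈ P j, ‖DP M a (t + u j)‖ ^ 2 ≤
          12 * (1 + Real.log M) ^ 3 *
            ((∑ j, ((P j).card : ℝ)) * (1 + M / h) + M * Real.log (M / δ)) *
            ∑ n ∈ Icc 1 M, ‖a n‖ ^ 2 := by
  classical
  have hM1 : (1:ℝ) ≤ M := by exact_mod_cast hM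
  have hM0 : (0:ℝ) < M := by linarith
  have hl : 0 ≤ Real.log M := Real.log_nonneg hM1
  set ℓ := Real.log M with hℓ
  set B : ℝ := 12 * (1 + ℓ) ^ 3 * M with hB
  have hB0 : 0 < B := by positivity
  have he0 : 0 ≤ Real.exp 1 - 1 := by
    have := Real.add_one_le_exp 1
    linarith
  have he : Real.exp 1 - 1 ≤ 2 := by
    have := Real.exp_one_lt_d9
    linarith
  have hconst : (2 + ℓ ^ 2) * ((M : ℝ) + 1 + 4 * M * (1 + ℓ)) ≤ B := by
    have h1 : 2 + ℓ ^ 2 ≤ 2 * (1 + ℓ) ^ 2 := by nlinarith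
    have h2 : (M : ℝ) + 1 + 4 * M * (1 + ℓ) ≤ 6 * M * (1 + ℓ) := by nlinarith
    calc (2 + ℓ ^ 2) * ((M : ℝ) + 1 + 4 * M * (1 + ℓ)) ≤ (2 * (1 + ℓ) ^ 2) * (6 * M * (1 + ℓ)) :=
          mul_le_mul h1 h2 (by positivity) (by positivity)
      _ = B := by rw [hB]; ring
  set κ : ι → ℝ := fun j => (P j).card / B * (1 + 4 * M * (1 + ℓ) / h) with hκ
  have hκ0 : ∀ j, 0 ≤ κ j := fun j => by rw [hκ]; positivity
  have hfam : ∀ j, Fam h (κ j) (YY M B (P j)) := fun j =>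
    YY_fam hM hB0 hh hM0.le (P j) (hP j) (hx j) hconst
  set s : ℝ := (Real.exp 1 - 1) * ∑ j, κ j + Real.log (M / δ) with hs
  have htail := tail hh.le κ hκ0 (fun j => YY M B (P j)) hfam s
  set E₀ : Set (ι → ℝ) := {x : ι → ℝ | (∀ i, x i ∈ Set.Icc 0 h) ∧ ∃ v : VV M, ‖v‖ = 1 ∧
        s ≤ ∑ i, qf (YY M B (P i) (x i) : Module.End ℂ (VV M)) v} with hE₀
  refine ⟨toMeasurable volume E₀, measurableSet_toMeasurable _ _, ?_, ?_⟩
  · rw [measure_toMeasurable]
    refine htail.trans (le_of_eq ?_)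
    congr 1
    have hfr : (Module.finrank ℂ (VV M) : ℝ) = M := by
      rw [finrank_euclideanSpace, Fintype.card_coe, Nat.card_Icc]
      simp
    have hq : (0:ℝ) < M / δ := by positivity
    rw [hfr, hs, neg_add, Real.exp_add, Real.exp_neg (Real.log (M / δ)), Real.exp_log hq,
      Real.exp_neg]
    have := Real.exp_pos ((Real.exp 1 - 1) * ∑ j, κ j)
    field_simp
  · intro u hu huE a
    have huE₀ : u ∉ E₀ := fun hc => huE (subset_toMeasurable _ _ hc)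
    have hall : ∀ v : VV M, ‖v‖ = 1 →
        ∑ i, qf (YY M B (P i) (u i) : Module.End ℂ (VV M)) v ≤ s := by
      intro v hv
      by_contra hc
      exact huE₀ ⟨hu, v, hv, (not_le.1 hc).le⟩
    have hall' : ∀ v : VV M,
        ∑ i, qf (YY M B (P i) (u i) : Module.End ℂ (VV M)) v ≤ s * ‖v‖ ^ 2 := by
      intro v
      by_cases hv : v = 0
      · subst hv
        simp [qf]
      · have hv0 : ‖v‖ ≠ 0 := norm_ne_zero_iff.2 hv
        have hv1 : ‖((‖v‖⁻¹ : ℝ) : ℂ) • v‖ = 1 := by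
          rw [norm_smul, Complex.norm_real, norm_inv, norm_norm, inv_mul_cancel₀ hv0]
        have h1 := hall _ hv1
        simp only [qf_smul] at h1
        rw [← Finset.mul_sum, Complex.norm_real, norm_inv, norm_norm, inv_pow,
          inv_mul_le_iff₀ (by positivity)] at h1
        linarith
    have h1 := hall' (va M a)
    simp only [YY_qf] at h1
    rw [← Finset.mul_sum, inv_mul_le_iff₀ hB0, norm_va M a] at h1
    simp only [DP_va M a] at h1
    refine h1.trans ?_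
    rw [← mul_assoc]
    apply mul_le_mul_of_nonneg_right _ (sum_nonneg fun _ _ => by positivity)
    set R : ℝ := ∑ j, ((P j).card : ℝ) with hR
    have hR0 : 0 ≤ R := sum_nonneg fun _ _ => by positivity
    have h2 : ∑ j, κ j = R / B * (1 + 4 * M * (1 + ℓ) / h) := by
      rw [hκ, ← Finset.sum_mul, ← Finset.sum_div]
    have h4 : 1 + 4 * M * (1 + ℓ) / h ≤ 6 * (1 + ℓ) ^ 3 * (1 + M / h) := by
      have h6 : (1:ℝ) ≤ (1 + ℓ) ^ 2 := one_le_pow₀ (by linarith)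
      have h7 : 1 + ℓ ≤ (1 + ℓ) ^ 3 := by nlinarith
      have h8 : (0:ℝ) ≤ M / h := by positivity
      have e : 4 * M * (1 + ℓ) / h = 4 * (1 + ℓ) * (M / h) := by ring
      rw [e]
      nlinarith [mul_le_mul_of_nonneg_right h7 h8]
    have h9 : B * ((Real.exp 1 - 1) * ∑ j, κ j) ≤ 12 * (1 + ℓ) ^ 3 * (R * (1 + M / h)) := by
      rw [h2]
      have e : B * ((Real.exp 1 - 1) * (R / B * (1 + 4 * M * (1 + ℓ) / h))) =
        R * ((Real.exp 1 - 1) * (1 + 4 * M * (1 + ℓ) / h)) := by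
        field_simp
      rw [e]
      have e2 : 12 * (1 + ℓ) ^ 3 * (R * (1 + M / h)) =
        R * (2 * (6 * (1 + ℓ) ^ 3 * (1 + M / h))) := by ring
      rw [e2]
      apply mul_le_mul_of_nonneg_left _ hR0
      exact mul_le_mul he h4 (by positivity) (by norm_num)
    calc B * s = B * ((Real.exp 1 - 1) * ∑ j, κ j) + B * Real.log (M / δ) := by
          rw [hs]; ring
      _ ≤ 12 * (1 + ℓ) ^ 3 * (R * (1 + M / h)) + B * Real.log (M / δ) := by linarith
      _ = 12 * (1 + ℓ) ^ 3 * (R * (1 + M / h) + M * Real.log (M / δ)) := by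
          rw [hB]; ring

end Pool.Agent.Q229.LQ
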